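import Pool.Agent.Q277.TK.Tools

/-!
# Project TK (helper54), job EXT: extension of matchings
-/

set_option autoImplicit false
set_option linter.unusedVariables false

namespace Pool.Agent.Q277.TK

open Finset
open Pool.Agent.Q54.TK

section
variable {V : Type} [DecidableEq V]

/-- the count for a matching -/
lemma count_X {k : ℕ} {F L : Finset (Finset V)} {X : Finset V} (hF : UF k F) (hL : L ⊆ F)
    (hP : PD L) : X.card + ∑ e ∈ L, (e \ X).card = (X \ L.biUnion id).card + k * L.card ∧
      X.card ≤ (X \ L.biUnion id).card + k * L.card := by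
  have h1 : (X ∩ L.biUnion id).card = ∑ e ∈ L, (e ∩ X).card := by
    have : X ∩ L.biUnion id = L.biUnion (fun e => e ∩ X) := by
      ext x
      simp only [Finset.mem_inter, Finset.mem_biUnion, id]
      constructor
      · rintro ⟨h1, e, he, hx⟩
        exact ⟨e, he, hx, h1⟩
      · rintro ⟨e, he, hx, h1⟩
        exact ⟨h1, e, he, hx⟩
    rw [this, Finset.card_biUnion]
    intro e he f hf hne
    exact (hP e he f hf hne).mono Finset.inter_subset_left Finset.inter_subset_left
  have h2 : ∑ e ∈ L, ((e \ X).card + (e ∩ X).card) = k * L.card := by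
    rw [Finset.sum_congr rfl (fun e he => (by
      rw [Finset.card_sdiff_add_card_inter]; exact hF e (hL he) :
      (e \ X).card + (e ∩ X).card = k)), Finset.sum_const, smul_eq_mul, mul_comm]
  rw [Finset.sum_add_distrib] at h2
  have h3 : (X \ L.biUnion id).card + (X ∩ L.biUnion id).card = X.card :=
    Finset.card_sdiff_add_card_inter X (L.biUnion id)
  constructor <;> omega

end

theorem ext : S_PMU → S_EXT := by
  intro hPMU k hk
  obtain ⟨ρ0, hρ0, m0, hm⟩ := hPMU k hk
  have hk' : (2 : ℝ) ≤ k := by exact_mod_cast hk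
  have hk0 : (0 : ℝ) < k := by linarith
  refine ⟨1 / (8 * (k : ℝ) ^ 2), ρ0 / 2 ^ (k - 1), by positivity, by positivity,
    8 * k ^ 2 + m0, ?_⟩
  intro s hs V _ _ F X hyp hX hms
  have hs8 : (8 : ℝ) * k ^ 2 ≤ s := by
    have : 8 * k ^ 2 ≤ s := by omega
    exact_mod_cast this
  have hsm : (m0 : ℝ) ≤ s := by
    have : m0 ≤ s := by omega
    exact_mod_cast this
  have hsp : (0 : ℝ) < s := by nlinarith
  have hδ : (1 - 1 / (8 * (k : ℝ) ^ 2)) * (k * s) = k * s - s / (8 * k) := by
    field_simp
  rw [hδ] at hX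
  have hsk : (s : ℝ) / (8 * k) ≤ s / 16 := by
    apply div_le_div_of_nonneg_left hsp.le (by norm_num) (by linarith)
  -- small matchings
  have hA : ∀ L : Finset (Finset V), L ⊆ F → PD L → (∀ e ∈ L, ¬ e ⊆ X) → 4 * k * L.card ≤ s →
      X.card + ∑ e ∈ L, (e \ X).card ≤ k * s + k - 1 := by
    intro L hLF hLP hLX hLs
    obtain ⟨h1, h2⟩ := count_X (X := X) hyp.uf hLF hLP
    set Y := X \ L.biUnion id with hY
    have hYX : Y ⊆ X := Finset.sdiff_subset
    have h2' : (X.card : ℝ) ≤ Y.card + k * L.card := by exact_mod_cast h2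
    have hLs' : (4 : ℝ) * k * L.card ≤ s := by exact_mod_cast hLs
    have hYc : (k : ℝ) * s / 2 ≤ Y.card := by
      nlinarith
    have hYm : m0 ≤ Y.card := by
      have : (m0 : ℝ) ≤ Y.card := by nlinarith
      exact_mod_cast this
    have hYms : ∀ v ∈ Y, (ms k F Y v : ℝ) ≤ ρ0 * (Y.card : ℝ) ^ (k - 1) := by
      intro v hv
      have h3 : (ms k F Y v : ℝ) ≤ ms k F X v := by exact_mod_cast ms_mono k F hYX v
      have h4 := hms v (hYX hv)
      have h5 : ((k : ℝ) * s) ^ (k - 1) ≤ (2 * Y.card) ^ (k - 1) := by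
        apply pow_le_pow_left₀ (by positivity)
        linarith
      rw [mul_pow 2] at h5
      calc (ms k F Y v : ℝ) ≤ ρ0 / 2 ^ (k - 1) * ((k : ℝ) * s) ^ (k - 1) := h3.trans h4
        _ ≤ ρ0 / 2 ^ (k - 1) * (2 ^ (k - 1) * (Y.card : ℝ) ^ (k - 1)) :=
          mul_le_mul_of_nonneg_left h5 (by positivity)
        _ = ρ0 * (Y.card : ℝ) ^ (k - 1) := by
          field_simp
    obtain ⟨M, hMF, hMP, hMY, hMc⟩ := hm V F Y hyp.uf hYm hYms
    have hdis : ∀ e ∈ L, ∀ f ∈ M, Disjoint e f := by
      intro e he f hf
      rw [Finset.disjoint_left]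
      intro x hxe hxf
      have := hMY f hf hxf
      rw [hY, Finset.mem_sdiff] at this
      exact this.2 (Finset.mem_biUnion.2 ⟨e, he, hxe⟩)
    have hLM : Disjoint L M := by
      rw [Finset.disjoint_left]
      intro e he he'
      exact hLX e he ((hMY e he').trans hYX)
    have h6 := hyp.nu (L ∪ M) (Finset.union_subset hLF hMF) (PD_union hLP hMP hdis)
    rw [Finset.card_union_of_disjoint hLM, hMc] at h6
    rw [h1]
    have h7 : Y.card < k * (Y.card / k) + k := by
      have := Nat.div_add_mod Y.card k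
      have := Nat.mod_lt Y.card (by omega : 0 < k)
      omega
    have h8 : k * (L.card + Y.card / k) ≤ k * s := Nat.mul_le_mul_left k h6
    rw [Nat.mul_add] at h8
    omega
  have hX1 : X.card ≤ k * s + k - 1 := by
    have := hA ∅ (Finset.empty_subset _) PD_empty (fun e he => absurd he (Finset.notMem_empty e))
      (by simp)
    simpa using this
  refine ⟨hyp, ?_, ?_⟩
  · intro L hLF hLP hLX
    by_cases hLs : 4 * k * L.card ≤ s
    · exact hA L hLF hLP hLX hLs
    · exfalso
      rw [not_le] at hLs
      set j := k * s + k - 1 - X.card with hj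
      have hj1 : 4 * k * (j + 1) ≤ s := by
        have h1 : (j : ℝ) + 1 = k * s + k - X.card := by
          have : j + 1 + X.card = k * s + k := by omega
          have : ((j + 1 + X.card : ℕ) : ℝ) = ((k * s + k : ℕ) : ℝ) := by exact_mod_cast this
          push_cast at this
          linarith
        have h2 : (j : ℝ) + 1 ≤ s / (8 * k) + k := by
          rw [h1]
          linarith
        have h3 : (4 : ℝ) * k * (j + 1) ≤ s := by
          have h4 : (4 : ℝ) * k * (j + 1) ≤ 4 * k * (s / (8 * k) + k) :=
            mul_le_mul_of_nonneg_left h2 (by positivity)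
          have h5 : (4 : ℝ) * k * (s / (8 * k) + k) = s / 2 + 4 * k ^ 2 := by
            field_simp
            ring
          rw [h5] at h4
          linarith
        exact_mod_cast h3
      have hjL : j + 1 ≤ L.card := by
        by_contra hc
        rw [not_le] at hc
        have : 4 * k * L.card ≤ 4 * k * (j + 1) := Nat.mul_le_mul_left _ hc.le
        omega
      obtain ⟨L', hL'L, hL'c⟩ := Finset.exists_subset_card_eq hjL
      have h1 := hA L' (hL'L.trans hLF) (PD_mono hL'L hLP) (fun e he => hLX e (hL'L he))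
        (by rw [hL'c]; exact hj1)
      have h2 : L'.card ≤ ∑ e ∈ L', (e \ X).card := by
        rw [Finset.card_eq_sum_ones]
        apply Finset.sum_le_sum
        intro e he
        rw [Nat.one_le_iff_ne_zero, Ne, Finset.card_eq_zero, Finset.sdiff_eq_empty_iff_subset]
        exact hLX e (hL'L he)
      omega
  · have h1 : (k : ℝ) ≤ X.card := by nlinarith
    have h2 : k ≤ X.card := by exact_mod_cast h1
    omega

end Pool.Agent.Q277.TK
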