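import Pool.Agent.Q277.TK.Tools

/-!
# Project TK (helper54), job PM2: counting
-/

set_option autoImplicit false
set_option linter.unusedVariables false

namespace Pool.Agent.Q277.TK

open Finset
open Pool.Agent.Q54.TK

/-- bound for the number of bad functions -/
lemma bad_count {V : Type} [DecidableEq V] {k : ℕ} (F M : Finset (Finset V)) (X : Finset V)
    (en : Finset V → Fin k → V) (i : Fin k) (a : Fin k → Fin k) (r : Finset V → V)
    (hP : PD M) (hMX : ∀ e ∈ M, e ⊆ X)
    (hen : ∀ e ∈ M, Function.Injective (en e) ∧ ∀ m, en e m ∈ e)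
    (B : Finset (Fin k → Finset V))
    (hB : ∀ f ∈ B, Function.Injective f ∧ (∀ j, f j ∈ M) ∧
      insert (r (f i)) ((univ.erase i).image (fun j => en (f j) (a j))) ∉ F)
    (hr : ∀ f ∈ B, r (f i) ∉ (univ.erase i).image (fun j => en (f j) (a j))) :
    B.card ≤ ∑ e ∈ M, ms k F X (r e) * k ^ k := by
  have key : ∀ e ∈ M, ∀ e' ∈ M, ∀ x y, en e x = en e' y → e = e' := by
    intro e he e' he' x y hxy
    by_contra hne
    have h1 := hP e he e' he' hne
    rw [Finset.disjoint_left] at h1
    refine h1 ((hen e he).2 x) ?_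
    rw [hxy]
    exact (hen e' he').2 y
  have hk : 0 < k := i.pos
  set SS : V → Finset (Finset V) := fun v =>
    ((X.erase v).powersetCard (k - 1)).filter (fun S => insert v S ∉ F) with hSS
  set G : Finset V → Finset V → Finset (Fin k → Finset V) := fun e S =>
    Fintype.piFinset (fun j => if j = i then {e} else M.filter (fun e' => en e' (a j) ∈ S)) with hG
  have hsub : B ⊆ M.biUnion (fun e => (SS (r e)).biUnion (fun S => G e S)) := by
    intro f hf
    obtain ⟨h1, h2, h3⟩ := hB f hf
    have h4 := hr f hf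
    rw [Finset.mem_biUnion]
    refine ⟨f i, h2 i, ?_⟩
    rw [Finset.mem_biUnion]
    refine ⟨(univ.erase i).image (fun j => en (f j) (a j)), ?_, ?_⟩
    · rw [hSS, Finset.mem_filter, Finset.mem_powersetCard]
      refine ⟨⟨?_, ?_⟩, h3⟩
      · intro x hx
        rw [Finset.mem_erase]
        refine ⟨?_, ?_⟩
        · rintro rfl
          exact h4 hx
        · obtain ⟨j, _, rfl⟩ := Finset.mem_image.1 hx
          exact hMX _ (h2 j) ((hen _ (h2 j)).2 _)
      · rw [Finset.card_image_of_injOn, Finset.card_erase_of_mem (Finset.mem_univ i),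
          Finset.card_univ, Fintype.card_fin]
        intro j hj j' hj' hjj
        exact h1 (key _ (h2 j) _ (h2 j') _ _ hjj)
    · rw [hG, Fintype.mem_piFinset]
      intro j
      by_cases hj : j = i
      · rw [if_pos hj, hj]
        exact Finset.mem_singleton_self _
      · rw [if_neg hj, Finset.mem_filter]
        exact ⟨h2 j, Finset.mem_image.2 ⟨j, Finset.mem_erase.2 ⟨hj, Finset.mem_univ j⟩, rfl⟩⟩
  refine (Finset.card_le_card hsub).trans (Finset.card_biUnion_le.trans ?_)
  apply Finset.sum_le_sum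
  intro e he
  have hms : ms k F X (r e) = (SS (r e)).card := rfl
  rw [hms]
  apply Finset.card_biUnion_le_card_mul
  intro S hS
  rw [hSS, Finset.mem_filter, Finset.mem_powersetCard] at hS
  rw [hG, Fintype.card_piFinset]
  calc ∏ j, (if j = i then {e} else M.filter (fun e' => en e' (a j) ∈ S)).card
      ≤ ∏ j : Fin k, k := by
        apply Finset.prod_le_prod'
        intro j _
        by_cases hj : j = i
        · rw [if_pos hj, Finset.card_singleton]
          exact hk
        · rw [if_neg hj]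
          have h5 : (M.filter (fun e' => en e' (a j) ∈ S)).card ≤ S.card := by
            apply Finset.card_le_card_of_injOn (fun e' => en e' (a j))
            · intro e' he'
              exact (Finset.mem_filter.1 he').2
            · intro e1 he1 e2 he2 h12
              exact key _ (Finset.mem_filter.1 he1).1 _ (Finset.mem_filter.1 he2).1 _ _ h12
          rw [hS.1.2] at h5
          omega
    _ = k ^ k := by rw [Finset.prod_const, Finset.card_univ, Fintype.card_fin]

/-- the number of injective functions -/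
lemma emb_count {k m : ℕ} (hk : 1 ≤ k) (hm : 2 * k ^ 2 ≤ m) :
    (m : ℝ) ^ k / 2 ≤ (m.descFactorial k : ℝ) := by
  have hk1 : (1 : ℝ) ≤ k := by exact_mod_cast hk
  have hmr : 2 * (k : ℝ) ^ 2 ≤ m := by exact_mod_cast hm
  have hm0 : (0 : ℝ) < m := by nlinarith
  have hkm : k ≤ m := by
    have : k ≤ k ^ 2 := Nat.le_self_pow (by norm_num) k
    omega
  have h1 : (m + 1 - k) ^ k ≤ m.descFactorial k := Nat.pow_sub_le_descFactorial m k
  have h2 : (((m + 1 - k : ℕ) : ℝ)) ^ k ≤ (m.descFactorial k : ℝ) := by exact_mod_cast h1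
  refine le_trans ?_ h2
  have h3 : ((m + 1 - k : ℕ) : ℝ) = m * (1 + (-((k - 1) / m))) := by
    rw [Nat.cast_sub (by omega)]
    push_cast
    field_simp
    ring
  rw [h3, mul_pow]
  have h5 : ((k : ℝ) - 1) / m ≤ 1 := by
    rw [div_le_one hm0]
    nlinarith
  have h4 := one_add_mul_le_pow (a := -(((k : ℝ) - 1) / m)) (by linarith) k
  have h6 : (1 : ℝ) / 2 ≤ 1 + k * (-(((k : ℝ) - 1) / m)) := by
    have h7 : (k : ℝ) * (((k : ℝ) - 1) / m) ≤ 1 / 2 := by
      rw [← mul_div_assoc, div_le_iff₀ hm0]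
      nlinarith
    linarith
  have h8 : (0 : ℝ) < (m : ℝ) ^ k := by positivity
  calc (m : ℝ) ^ k / 2 = (m : ℝ) ^ k * (1 / 2) := by ring
    _ ≤ (m : ℝ) ^ k * (1 + -(((k : ℝ) - 1) / m)) ^ k :=
      mul_le_mul_of_nonneg_left (h6.trans h4) h8.le

theorem pm2 : S_PM2 := by
  intro k hk _
  have hk2 : (2 : ℝ) ≤ k := by exact_mod_cast hk
  have hk0 : (0 : ℝ) < k := by linarith
  set c : ℝ := 4 * (k + 1) * (k : ℝ) ^ k * (2 * k) ^ (k - 1) with hc
  have hc0 : 0 < c := by positivity
  refine ⟨1 / c, by positivity, 2 * k ^ 2, ?_⟩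
  intro V _ _ F M X u en hF hMF hMP hMX hui huX huM hen hm0 hXM hms
  classical
  by_contra hcon
  push Not at hcon
  set m := M.card with hm
  have hmr : (2 : ℝ) * k ^ 2 ≤ m := by exact_mod_cast hm0
  have hmp : (0 : ℝ) < m := by nlinarith
  set E : Finset (Fin k → Finset V) :=
    (Finset.univ : Finset (Fin k ↪ {e // e ∈ M})).image (fun φ j => (φ j : Finset V)) with hE
  have hEc : E.card = m.descFactorial k := by
    rw [hE, Finset.card_image_of_injective, Finset.card_univ, Fintype.card_embedding_eq,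
      Fintype.card_coe, Fintype.card_fin]
    intro φ φ' h
    apply DFunLike.ext
    intro j
    exact Subtype.ext (congrFun h j)
  have hEp : ∀ f ∈ E, Function.Injective f ∧ ∀ j, f j ∈ M := by
    intro f hf
    rw [hE, Finset.mem_image] at hf
    obtain ⟨φ, _, rfl⟩ := hf
    exact ⟨Subtype.val_injective.comp φ.injective, fun j => (φ j).2⟩
  have hmsX : ∀ v ∈ X, (ms k F X v : ℝ) ≤ 1 / c * (2 * k * m) ^ (k - 1) := by
    intro v hv
    refine (hms v hv).trans (mul_le_mul_of_nonneg_left ?_ (by positivity))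
    apply pow_le_pow_left₀ (by positivity)
    exact_mod_cast hXM
  have hbound : ∀ r : Finset V → V, (∀ e ∈ M, r e ∈ X) →
      ((∑ e ∈ M, ms k F X (r e) * k ^ k : ℕ) : ℝ) ≤ (m : ℝ) ^ k / (4 * (k + 1)) := by
    intro r hr
    push_cast
    have h1 : ∑ e ∈ M, (ms k F X (r e) : ℝ) * (k : ℝ) ^ k ≤
        ∑ e ∈ M, (1 / c * (2 * k * m) ^ (k - 1)) * (k : ℝ) ^ k := by
      apply Finset.sum_le_sum
      intro e he
      exact mul_le_mul_of_nonneg_right (hmsX _ (hr e he)) (by positivity)
    refine h1.trans (le_of_eq ?_)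
    rw [Finset.sum_const, nsmul_eq_mul, ← hm, hc]
    have h2 : (m : ℝ) ^ k = (m : ℝ) ^ (k - 1) * m := by
      rw [← pow_succ]
      congr 1
      omega
    rw [h2, mul_pow]
    field_simp
    rw [mul_pow, mul_pow]
    ring
  -- the bad sets
  set Bi : Fin k → Finset (Fin k → Finset V) := fun i => E.filter (fun f => gi u f en i ∉ F)
    with hBi
  set Bs : Finset (Fin k → Finset V) := E.filter (fun f => gs f en ∉ F) with hBs
  have hBic : ∀ i, ((Bi i).card : ℝ) ≤ (m : ℝ) ^ k / (4 * (k + 1)) := by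
    intro i
    have h1 := bad_count F M X en i (fun j => i - j) (fun _ => u i) hMP hMX hen (Bi i) (by
      intro f hf
      rw [hBi, Finset.mem_filter] at hf
      exact ⟨(hEp f hf.1).1, (hEp f hf.1).2, hf.2⟩) (by
      intro f hf h
      rw [hBi, Finset.mem_filter] at hf
      obtain ⟨j, _, hj⟩ := Finset.mem_image.1 h
      refine huM i (f j) ((hEp f hf.1).2 j) ?_
      rw [← hj]
      exact (hen _ ((hEp f hf.1).2 j)).2 _)
    have h2 : ((Bi i).card : ℝ) ≤ ((∑ e ∈ M, ms k F X (u i) * k ^ k : ℕ) : ℝ) := by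
      exact_mod_cast h1
    exact h2.trans (hbound (fun _ => u i) (fun e he => huX i))
  have hBsc : (Bs.card : ℝ) ≤ (m : ℝ) ^ k / (4 * (k + 1)) := by
    have hgs : ∀ f : Fin k → Finset V, gs f en =
        insert (en (f 0) 0) ((univ.erase (0 : Fin k)).image (fun j => en (f j) 0)) := by
      intro f
      unfold gs
      rw [← Finset.image_insert (f := fun j => en (f j) 0) (a := (0 : Fin k)),
        Finset.insert_erase (Finset.mem_univ _)]
    have h1 := bad_count F M X en 0 (fun j => 0) (fun e => en e 0) hMP hMX hen Bs (by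
      intro f hf
      rw [hBs, Finset.mem_filter] at hf
      refine ⟨(hEp f hf.1).1, (hEp f hf.1).2, ?_⟩
      rw [← hgs f]
      exact hf.2) (by
      intro f hf h
      rw [hBs, Finset.mem_filter] at hf
      obtain ⟨j, hj0, hj⟩ := Finset.mem_image.1 h
      have hne : f j ≠ f 0 := fun h => (Finset.mem_erase.1 hj0).1 ((hEp f hf.1).1 h)
      have hdis := hMP _ ((hEp f hf.1).2 j) _ ((hEp f hf.1).2 0) hne
      rw [Finset.disjoint_left] at hdis
      refine hdis ((hen _ ((hEp f hf.1).2 j)).2 0) ?_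
      have hj' : en (f j) 0 = en (f 0) 0 := hj
      rw [hj']
      exact (hen _ ((hEp f hf.1).2 0)).2 0)
    have h2 : (Bs.card : ℝ) ≤ ((∑ e ∈ M, ms k F X (en e 0) * k ^ k : ℕ) : ℝ) := by
      exact_mod_cast h1
    exact h2.trans (hbound (fun e => en e 0) (fun e he => hMX e he ((hen e he).2 0)))
  have hcov : E ⊆ (univ.biUnion Bi) ∪ Bs := by
    intro f hf
    by_cases h1 : ∀ i, gi u f en i ∈ F
    · rw [Finset.mem_union]
      right
      rw [hBs, Finset.mem_filter]
      exact ⟨hf, hcon f (hEp f hf).1 (hEp f hf).2 h1⟩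
    · push Not at h1
      obtain ⟨i, hi⟩ := h1
      rw [Finset.mem_union]
      left
      rw [Finset.mem_biUnion]
      exact ⟨i, Finset.mem_univ _, by rw [hBi, Finset.mem_filter]; exact ⟨hf, hi⟩⟩
  have hcard : (E.card : ℝ) ≤ ∑ i, ((Bi i).card : ℝ) + Bs.card := by
    have h1 : E.card ≤ ∑ i, (Bi i).card + Bs.card :=
      (Finset.card_le_card hcov).trans ((Finset.card_union_le _ _).trans
        (Nat.add_le_add_right Finset.card_biUnion_le _))
    exact_mod_cast h1
  have hsum : ∑ i, ((Bi i).card : ℝ) ≤ k * ((m : ℝ) ^ k / (4 * (k + 1))) := by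
    calc ∑ i, ((Bi i).card : ℝ) ≤ ∑ i : Fin k, (m : ℝ) ^ k / (4 * (k + 1)) :=
          Finset.sum_le_sum fun i _ => hBic i
      _ = k * ((m : ℝ) ^ k / (4 * (k + 1))) := by
          rw [Finset.sum_const, Finset.card_univ, Fintype.card_fin, nsmul_eq_mul]
  have hemb := emb_count (k := k) (m := m) (by omega) hm0
  rw [hEc] at hcard
  have hmk : (0 : ℝ) < (m : ℝ) ^ k := by positivity
  have hfin : (k : ℝ) * ((m : ℝ) ^ k / (4 * (k + 1))) + (m : ℝ) ^ k / (4 * (k + 1)) =
      (m : ℝ) ^ k / 4 := by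
    field_simp
  linarith

end Pool.Agent.Q277.TK
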