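import Pool.Agent.Q277.TK.Tools

/-!
# Project TK (helper54), job PMU: perfect matchings in nearly complete families
-/

set_option autoImplicit false
set_option linter.unusedVariables false

namespace Pool.Agent.Q277.TK

open Finset
open Pool.Agent.Q54.TK

open Classical in
theorem pmu : S_PM1 → S_PM2 → S_PMU := by
  intro h1 h2 k hk
  have : NeZero k := ⟨by omega⟩
  obtain ⟨ρ0, hρ0, m0, hm⟩ := h2 k hk
  have hk0 : (0 : ℝ) < k := by
    have : (2 : ℝ) ≤ k := by exact_mod_cast hk
    linarith
  refine ⟨min ρ0 (1 / (2 * (4 ^ (k - 1) * (k - 1).factorial))), by positivity,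
    2 * k * m0 + 4 * k, ?_⟩
  intro V _ _ F X hF hX hms
  have hX0 : 0 < X.card := by omega
  have hXr : (0 : ℝ) < X.card := by exact_mod_cast hX0
  -- a largest matching
  obtain ⟨M, hM, hmax⟩ := Finset.exists_max_image
    (F.powerset.filter (fun M => PD M ∧ ∀ e ∈ M, e ⊆ X)) Finset.card
    ⟨∅, by simp [PD_empty]⟩
  rw [Finset.mem_filter, Finset.mem_powerset] at hM
  obtain ⟨hMF, hMP, hMX⟩ := hM
  have hmax' : ∀ M' : Finset (Finset V), M' ⊆ F → PD M' → (∀ e ∈ M', e ⊆ X) →
      M'.card ≤ M.card := by
    intro M' h3 h4 h5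
    exact hmax M' (Finset.mem_filter.2 ⟨Finset.mem_powerset.2 h3, h4, h5⟩)
  set U := X \ M.biUnion id with hU
  have hUX : U ⊆ X := Finset.sdiff_subset
  have hsub : M.biUnion id ⊆ X := Finset.biUnion_subset.2 hMX
  have hcU : U.card + k * M.card = X.card := by
    rw [← card_bU hF hMF hMP, hU]
    exact Finset.card_sdiff_add_card_eq_card hsub
  have hUM : ∀ v ∈ U, ∀ e ∈ M, v ∉ e := by
    intro v hv e he hve
    rw [hU, Finset.mem_sdiff] at hv
    exact hv.2 (Finset.mem_biUnion.2 ⟨e, he, hve⟩)
  refine ⟨M, hMF, hMP, hMX, ?_⟩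
  by_contra hne
  have hle : M.card ≤ X.card / k := by
    rw [Nat.le_div_iff_mul_le (by omega)]
    rw [mul_comm]
    omega
  have hlt : M.card + 1 ≤ X.card / k := by omega
  have hUk : k ≤ U.card := by
    have h3 : (M.card + 1) * k ≤ X.card := (Nat.le_div_iff_mul_le (by omega)).1 hlt
    have h4 : (M.card + 1) * k = k * M.card + k := by ring
    omega
  by_cases hbig : 2 * k * M.card < X.card
  · -- many uncovered vertices
    have hU2 : X.card < 2 * U.card := by
      have : 2 * k * M.card = 2 * (k * M.card) := by ring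
      omega
    obtain ⟨v, hv⟩ : U.Nonempty := by
      rw [← Finset.card_pos]
      omega
    have hvX := hUX hv
    by_cases hex : ∃ S ∈ (U.erase v).powersetCard (k - 1), insert v S ∈ F
    · obtain ⟨S, hS, hSF⟩ := hex
      rw [Finset.mem_powersetCard] at hS
      have hsubU : insert v S ⊆ U :=
        Finset.insert_subset hv (hS.1.trans (Finset.erase_subset _ _))
      have hdis : ∀ f ∈ M, Disjoint (insert v S) f := by
        intro f hf
        rw [Finset.disjoint_left]
        intro x hx hxf
        exact hUM x (hsubU hx) f hf hxf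
      have hnot : insert v S ∉ M := by
        intro h
        exact hUM v hv _ h (Finset.mem_insert_self _ _)
      have h5 := hmax' (insert (insert v S) M) (Finset.insert_subset hSF hMF)
        (PD_insert hMP hdis) (by
          intro e he
          rcases Finset.mem_insert.1 he with rfl | he
          · exact hsubU.trans hUX
          · exact hMX e he)
      rw [Finset.card_insert_of_notMem hnot] at h5
      omega
    · push Not at hex
      have h3 : (U.card - 1).choose (k - 1) ≤ ms k F X v := by
        have h4 : ((U.erase v).powersetCard (k - 1)).card = (U.card - 1).choose (k - 1) := by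
          rw [Finset.card_powersetCard, Finset.card_erase_of_mem hv]
        rw [← h4]
        unfold ms
        apply Finset.card_le_card
        intro S hS
        rw [Finset.mem_filter]
        exact ⟨Finset.powersetCard_mono (Finset.erase_subset_erase v hUX) hS, hex S hS⟩
      have h4 := hms v hvX
      have h5 := Nat.pow_le_choose (α := ℝ) (k - 1) (U.card - 1)
      have h6 : (X.card : ℝ) / 4 ≤ ((U.card - 1 + 1 - (k - 1) : ℕ) : ℝ) := by
        have h7 : X.card ≤ 4 * (U.card - 1 + 1 - (k - 1)) := by omega
        have h8 : (X.card : ℝ) ≤ 4 * ((U.card - 1 + 1 - (k - 1) : ℕ) : ℝ) := by exact_mod_cast h7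
        linarith
      have h7 : ((X.card : ℝ) / 4) ^ (k - 1) ≤
          ((U.card - 1 + 1 - (k - 1) : ℕ) : ℝ) ^ (k - 1) :=
        pow_le_pow_left₀ (by positivity) h6 _
      have hf : (0 : ℝ) < (k - 1).factorial := by exact_mod_cast Nat.factorial_pos _
      have h8 : ((X.card : ℝ) / 4) ^ (k - 1) / (k - 1).factorial ≤
          ((U.card - 1).choose (k - 1) : ℝ) := by
        refine le_trans ?_ h5
        exact div_le_div_of_nonneg_right h7 hf.le
      have h9 : ((U.card - 1).choose (k - 1) : ℝ) ≤ ms k F X v := by exact_mod_cast h3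
      have h10 : min ρ0 (1 / (2 * (4 ^ (k - 1) * ((k - 1).factorial : ℝ)))) *
          (X.card : ℝ) ^ (k - 1) ≤ 1 / (2 * (4 ^ (k - 1) * ((k - 1).factorial : ℝ))) *
            (X.card : ℝ) ^ (k - 1) :=
        mul_le_mul_of_nonneg_right (min_le_right _ _) (by positivity)
      have h11 : ((X.card : ℝ) / 4) ^ (k - 1) / (k - 1).factorial =
          2 * (1 / (2 * (4 ^ (k - 1) * ((k - 1).factorial : ℝ))) * (X.card : ℝ) ^ (k - 1)) := by
        rw [div_pow]
        field_simp
      have h12 : (0 : ℝ) < 1 / (2 * (4 ^ (k - 1) * ((k - 1).factorial : ℝ))) *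
          (X.card : ℝ) ^ (k - 1) := by positivity
      linarith
  · -- the augmentation
    rw [not_lt] at hbig
    have hMm : m0 ≤ M.card := by
      have : 2 * k * m0 ≤ 2 * k * M.card := by omega
      exact Nat.le_of_mul_le_mul_left this (by omega)
    obtain ⟨W, hWU, hWc⟩ := Finset.exists_subset_card_eq hUk
    let u : Fin k → V := fun i => ((W.equivFinOfCardEq hWc).symm i : V)
    have huW : ∀ i, u i ∈ W := fun i => ((W.equivFinOfCardEq hWc).symm i).2
    have hui : Function.Injective u :=
      Subtype.val_injective.comp (W.equivFinOfCardEq hWc).symm.injective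
    let en : Finset V → Fin k → V := fun e =>
      if h : e.card = k then fun m => ((e.equivFinOfCardEq h).symm m : V) else u
    have hen : ∀ e ∈ M, Function.Injective (en e) ∧ ∀ m, en e m ∈ e := by
      intro e he
      have hc : e.card = k := hF e (hMF he)
      have h3 : en e = fun m => ((e.equivFinOfCardEq hc).symm m : V) := by
        simp only [en, dif_pos hc]
      rw [h3]
      exact ⟨Subtype.val_injective.comp (e.equivFinOfCardEq hc).symm.injective,
        fun m => ((e.equivFinOfCardEq hc).symm m).2⟩
    have huM : ∀ i, ∀ e ∈ M, u i ∉ e := fun i e he => hUM _ (hWU (huW i)) e he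
    have huX : ∀ i, u i ∈ X := fun i => hUX (hWU (huW i))
    obtain ⟨f, hf1, hf2, hf3, hf4⟩ := hm V F M X u en hF hMF hMP hMX hui huX huM hen hMm hbig
      (by
        intro v hv
        exact (hms v hv).trans (mul_le_mul_of_nonneg_right (min_le_left _ _) (by positivity)))
    obtain ⟨M', hM'F, hM'P, hM'X, hM'c⟩ := h1 V F M X k u f en hk hF hMF hMP hMX hui huX huM
      hf1 hf2 hen hf3 hf4
    have := hmax' M' hM'F hM'P hM'X
    omega

end Pool.Agent.Q277.TK
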