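import Pool.Agent.Q54.TK.StmB

/-!
# Project TK (helper54): tools
-/

set_option autoImplicit false
set_option linter.unusedVariables false

namespace Pool.Agent.Q277.TK

open Finset
open Pool.Agent.Q54.TK

section
variable {V : Type} [DecidableEq V]

lemma card_bU {k : ℕ} {F M : Finset (Finset V)} (hF : UF k F) (hM : M ⊆ F) (hP : PD M) :
    (M.biUnion id).card = k * M.card := by
  have h1 : (M.biUnion id).card = ∑ e ∈ M, (id e).card :=
    Finset.card_biUnion (fun e he f hf h => hP e he f hf h)
  rw [h1, Finset.sum_congr rfl (fun e he => (by exact hF e (hM he) : (id e).card = k)),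
    Finset.sum_const, smul_eq_mul, mul_comm]

omit [DecidableEq V] in
lemma PD_mono {L L' : Finset (Finset V)} (h : L' ⊆ L) (hP : PD L) : PD L' :=
  fun e he f hf hne => hP e (h he) f (h hf) hne

omit [DecidableEq V] in
lemma PD_empty : PD (∅ : Finset (Finset V)) := fun e he => absurd he (Finset.notMem_empty e)

/-- union of two matchings -/
lemma PD_union {L M : Finset (Finset V)} (hL : PD L) (hM : PD M)
    (h : ∀ e ∈ L, ∀ f ∈ M, Disjoint e f) : PD (L ∪ M) := by
  intro e he f hf hne
  rcases Finset.mem_union.1 he with he | he <;> rcases Finset.mem_union.1 hf with hf | hf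
  · exact hL e he f hf hne
  · exact h e he f hf
  · exact (h f hf e he).symm
  · exact hM e he f hf hne

lemma PD_insert {M : Finset (Finset V)} {e : Finset V} (hM : PD M)
    (h : ∀ f ∈ M, Disjoint e f) : PD (insert e M) := by
  intro a ha b hb hne
  rcases Finset.mem_insert.1 ha with ha | ha <;> rcases Finset.mem_insert.1 hb with hb | hb
  · exact absurd (ha.trans hb.symm) hne
  · rw [ha]
    exact h b hb
  · rw [hb]
    exact (h a ha).symm
  · exact hM a ha b hb hne

lemma ms_mono (k : ℕ) (F : Finset (Finset V)) {X Y : Finset V} (h : Y ⊆ X) (v : V) :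
    ms k F Y v ≤ ms k F X v := by
  unfold ms
  exact Finset.card_le_card (Finset.filter_subset_filter _
    (Finset.powersetCard_mono (Finset.erase_subset_erase v h)))

end

end Pool.Agent.Q277.TK
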