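import Pool.Agent.Q277.TK.Tools

/-!
# Project TK (helper54), job VST: choice of the core
-/

set_option autoImplicit false
set_option linter.unusedVariables false

namespace Pool.Agent.Q277.TK

open Finset
open Pool.Agent.Q54.TK

/-- the choice of the small number -/
lemma exists_eps (k : ℕ) (δ t a : ℝ) (hδ : 0 < δ) (ht : 0 < t) :
    ∃ ε : ℝ, 0 < ε ∧ ε ≤ 1 ∧ ε + (a * ((1 + ε) ^ k - 1) + ε) / t ≤ δ := by
  have hc : Continuous fun ε : ℝ => ε + (a * ((1 + ε) ^ k - 1) + ε) / t := by
    fun_prop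
  have h0 : (0 : ℝ) + (a * ((1 + 0) ^ k - 1) + 0) / t = 0 := by
    simp
  have h1 : ∀ᶠ ε in nhds (0 : ℝ), ε + (a * ((1 + ε) ^ k - 1) + ε) / t < δ := by
    have := hc.tendsto 0
    rw [h0] at this
    exact this.eventually (gt_mem_nhds hδ)
  obtain ⟨r, hr, hr'⟩ := Metric.eventually_nhds_iff.1 h1
  refine ⟨min (r / 2) 1, by positivity, min_le_right _ _, (hr' ?_).le⟩
  rw [Real.dist_eq, sub_zero, abs_of_pos (by positivity)]
  exact lt_of_le_of_lt (min_le_left _ _) (by linarith)

theorem vst : S_VST := by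
  intro k hk δ ρ hδ hρ
  have hk2 : (2 : ℝ) ≤ k := by exact_mod_cast hk
  have hk0 : (0 : ℝ) < k := by linarith
  have hf0 : (0 : ℝ) < k.factorial := by exact_mod_cast Nat.factorial_pos k
  set t : ℝ := ρ * (k : ℝ) ^ (k - 1) with ht
  have ht0 : 0 < t := by positivity
  obtain ⟨ε, hε0, hε1, hε⟩ := exists_eps k δ t ((k : ℝ) ^ k / k.factorial) hδ ht0
  refine ⟨ε, hε0, 1, ?_⟩
  intro s hs V _ _ F P hF hFc hPc hFP
  have hs1 : (1 : ℝ) ≤ s := by exact_mod_cast hs
  have hs0 : (0 : ℝ) < s := by linarith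
  -- the missing sets
  set Q : Finset (Finset V) := (P.powersetCard k).filter (fun e => e ∉ F) with hQ
  have hFsplit : (F.filter (fun e => e ⊆ P)).card + (F.filter (fun e => ¬ e ⊆ P)).card = F.card :=
    Finset.card_filter_add_card_filter_not _
  have hQsplit : ((P.powersetCard k).filter (fun e => e ∈ F)).card + Q.card = P.card.choose k := by
    rw [hQ, ← Finset.card_powersetCard]
    exact Finset.card_filter_add_card_filter_not _
  have hsame : (P.powersetCard k).filter (fun e => e ∈ F) = F.filter (fun e => e ⊆ P) := by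
    ext e
    simp only [Finset.mem_filter, Finset.mem_powersetCard]
    constructor
    · rintro ⟨⟨h1, h2⟩, h3⟩
      exact ⟨h3, h1⟩
    · rintro ⟨h1, h2⟩
      exact ⟨⟨h2, hF e h1⟩, h1⟩
  rw [hsame] at hQsplit
  -- binomials
  have hbig : ((k : ℝ) * s) ^ k / k.factorial ≤ ((k * s + k - 1).choose k : ℝ) := by
    have h1 := Nat.pow_le_choose (α := ℝ) k (k * s + k - 1)
    have h2 : ((k * s + k - 1 + 1 - k : ℕ) : ℝ) = k * s := by
      have : k * s + k - 1 + 1 - k = k * s := by omega
      rw [this]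
      push_cast
      ring
    rw [h2] at h1
    exact h1
  have hPch : (P.card.choose k : ℝ) ≤ (P.card : ℝ) ^ k / k.factorial := Nat.choose_le_pow_div k P.card
  have hFr : ((k * s + k - 1).choose k : ℝ) ≤ F.card := by exact_mod_cast hFc
  have hFsr : ((F.filter (fun e => e ⊆ P)).card : ℝ) + ((F.filter (fun e => ¬ e ⊆ P)).card : ℝ) =
      F.card := by exact_mod_cast hFsplit
  have hQsr : ((F.filter (fun e => e ⊆ P)).card : ℝ) + (Q.card : ℝ) = (P.card.choose k : ℝ) := by
    exact_mod_cast hQsplit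
  have hksp : ((k : ℝ) * s) ^ k = (k : ℝ) ^ k * (s : ℝ) ^ k := mul_pow _ _ _
  have hsk : (0 : ℝ) < (s : ℝ) ^ k := by positivity
  -- few missing sets
  have hQc : (Q.card : ℝ) ≤ ((k : ℝ) ^ k / k.factorial * ((1 + ε) ^ k - 1) + ε) * (s : ℝ) ^ k := by
    have h1 : (P.card : ℝ) ^ k ≤ ((1 + ε) * (k * s)) ^ k :=
      pow_le_pow_left₀ (by positivity) hPc _
    have h2 : (P.card : ℝ) ^ k / k.factorial ≤ ((1 + ε) * (k * s)) ^ k / k.factorial :=
      div_le_div_of_nonneg_right h1 hf0.le
    have h3 : ((1 + ε) * ((k : ℝ) * s)) ^ k / k.factorial - ((k : ℝ) * s) ^ k / k.factorial =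
        (k : ℝ) ^ k / k.factorial * ((1 + ε) ^ k - 1) * (s : ℝ) ^ k := by
      rw [mul_pow, hksp]
      ring
    have h4 : (Q.card : ℝ) ≤ ((1 + ε) * ((k : ℝ) * s)) ^ k / k.factorial -
        ((k : ℝ) * s) ^ k / k.factorial + ε * (s : ℝ) ^ k := by linarith
    rw [h3] at h4
    linarith
  -- `P` is large
  have hPl : (1 - ε) * (k * s) ≤ (P.card : ℝ) := by
    by_contra hc
    rw [not_le] at hc
    have h1 : (P.card : ℝ) ^ k < ((1 - ε) * (k * s)) ^ k :=
      pow_lt_pow_left₀ hc (by positivity) (by omega)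
    have h2 : (1 - ε) ^ k ≤ 1 - ε := by
      have h3 : (1 - ε) ^ k ≤ (1 - ε) ^ 1 :=
        pow_le_pow_of_le_one (by linarith) (by linarith) (by omega)
      rwa [pow_one] at h3
    have h3 : ((1 - ε) * ((k : ℝ) * s)) ^ k ≤ (1 - ε) * ((k : ℝ) * s) ^ k := by
      rw [mul_pow]
      exact mul_le_mul_of_nonneg_right h2 (by positivity)
    have h4 : (P.card : ℝ) ^ k / k.factorial < (1 - ε) * ((k : ℝ) * s) ^ k / k.factorial :=
      div_lt_div_of_pos_right (h1.trans_le h3) hf0
    have h5 : (0 : ℝ) ≤ Q.card := by positivity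
    have h6 : ((k : ℝ) * s) ^ k / k.factorial - ε * (s : ℝ) ^ k ≤ (P.card.choose k : ℝ) := by
      linarith
    have h7 : (k.factorial : ℝ) ≤ (k : ℝ) ^ k := by exact_mod_cast Nat.factorial_le_pow k
    have h8 : ε * (s : ℝ) ^ k ≤ ε * ((k : ℝ) * s) ^ k / k.factorial := by
      rw [le_div_iff₀ hf0, hksp]
      nlinarith [mul_pos hε0 hsk]
    have h9 : (1 - ε) * ((k : ℝ) * s) ^ k / k.factorial =
        ((k : ℝ) * s) ^ k / k.factorial - ε * ((k : ℝ) * s) ^ k / k.factorial := by ring
    linarith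
  -- the core
  set dgm : V → ℕ := fun v => (Q.filter (fun e => v ∈ e)).card with hdg
  set X : Finset V := P.filter (fun v => (dgm v : ℝ) ≤ t * (s : ℝ) ^ (k - 1)) with hX
  have hXP : X ⊆ P := Finset.filter_subset _ _
  refine ⟨X, ?_, ?_⟩
  · have h1 : ((P \ X).card : ℝ) * (t * (s : ℝ) ^ (k - 1)) ≤ ∑ v ∈ P, (dgm v : ℝ) := by
      calc ((P \ X).card : ℝ) * (t * (s : ℝ) ^ (k - 1))
          = ∑ v ∈ P \ X, t * (s : ℝ) ^ (k - 1) := by rw [Finset.sum_const, nsmul_eq_mul]
        _ ≤ ∑ v ∈ P \ X, (dgm v : ℝ) := by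
            apply Finset.sum_le_sum
            intro v hv
            rw [Finset.mem_sdiff, hX, Finset.mem_filter, not_and, not_le] at hv
            exact (hv.2 hv.1).le
        _ ≤ ∑ v ∈ P, (dgm v : ℝ) :=
            Finset.sum_le_sum_of_subset_of_nonneg Finset.sdiff_subset
              (fun v _ _ => by positivity)
    have h2 : ∑ v ∈ P, dgm v = k * Q.card := by
      have h3 : ∑ v ∈ P, dgm v = ∑ e ∈ Q, (P.filter (fun v => v ∈ e)).card := by
        simp only [hdg, Finset.card_filter]
        exact Finset.sum_comm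
      rw [h3, Finset.sum_congr rfl (fun e he => (by
        rw [hQ, Finset.mem_filter, Finset.mem_powersetCard] at he
        rw [Finset.filter_mem_eq_inter, Finset.inter_eq_right.2 he.1.1, he.1.2] :
          (P.filter (fun v => v ∈ e)).card = k)), Finset.sum_const, smul_eq_mul, mul_comm]
    have h2' : ∑ v ∈ P, (dgm v : ℝ) = k * Q.card := by exact_mod_cast h2
    rw [h2'] at h1
    have hsp : (s : ℝ) ^ k = (s : ℝ) ^ (k - 1) * s := by
      rw [← pow_succ]
      congr 1
      omega
    have hs' : (0 : ℝ) < (s : ℝ) ^ (k - 1) := by positivity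
    set ε1 := (k : ℝ) ^ k / k.factorial * ((1 + ε) ^ k - 1) + ε with hε1'
    have h3 : ((P \ X).card : ℝ) * t ≤ k * ε1 * s := by
      have h4 : ((P \ X).card : ℝ) * t * (s : ℝ) ^ (k - 1) ≤ (k * ε1 * s) * (s : ℝ) ^ (k - 1) := by
        calc ((P \ X).card : ℝ) * t * (s : ℝ) ^ (k - 1)
            = ((P \ X).card : ℝ) * (t * (s : ℝ) ^ (k - 1)) := by ring
          _ ≤ k * Q.card := h1
          _ ≤ k * (ε1 * (s : ℝ) ^ k) := mul_le_mul_of_nonneg_left hQc hk0.le
          _ = (k * ε1 * s) * (s : ℝ) ^ (k - 1) := by rw [hsp]; ring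
      exact le_of_mul_le_mul_right h4 hs'
    have h4 : ((P \ X).card : ℝ) ≤ ε1 / t * (k * s) := by
      rw [div_mul_eq_mul_div, le_div_iff₀ ht0]
      linarith
    have h5 : (P.card : ℝ) = (P \ X).card + X.card := by
      have := Finset.card_sdiff_add_card_eq_card hXP
      exact_mod_cast this.symm
    have h6 : (ε + ε1 / t) * (k * s) ≤ δ * (k * s) :=
      mul_le_mul_of_nonneg_right hε (by positivity)
    nlinarith
  · intro v hv
    rw [hX, Finset.mem_filter] at hv
    have h1 : ms k F X v ≤ dgm v := by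
      have h2 : ms k F X v ≤ ms k F P v := ms_mono k F hXP v
      refine h2.trans ?_
      unfold ms
      rw [hdg]
      apply Finset.card_le_card_of_injOn (fun S => insert v S)
      · intro S hS
        rw [Finset.mem_coe, Finset.mem_filter, Finset.mem_powersetCard] at hS
        have hvS : v ∉ S := fun h => by
          have := hS.1.1 h
          rw [Finset.mem_erase] at this
          exact this.1 rfl
        rw [Finset.mem_coe, Finset.mem_filter, hQ, Finset.mem_filter, Finset.mem_powersetCard]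
        refine ⟨⟨⟨Finset.insert_subset hv.1 (hS.1.1.trans (Finset.erase_subset _ _)), ?_⟩, hS.2⟩,
          Finset.mem_insert_self _ _⟩
        rw [Finset.card_insert_of_notMem hvS, hS.1.2]
        omega
      · intro S hS S' hS' h
        rw [Finset.mem_coe, Finset.mem_filter, Finset.mem_powersetCard] at hS hS'
        have hvS : v ∉ S := fun h => by
          have := hS.1.1 h
          rw [Finset.mem_erase] at this
          exact this.1 rfl
        have hvS' : v ∉ S' := fun h => by
          have := hS'.1.1 h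
          rw [Finset.mem_erase] at this
          exact this.1 rfl
        have h3 : (insert v S).erase v = (insert v S').erase v := by
          simp only at h
          rw [h]
        rwa [Finset.erase_insert hvS, Finset.erase_insert hvS'] at h3
    have h2 : (ms k F X v : ℝ) ≤ dgm v := by exact_mod_cast h1
    refine h2.trans (hv.2.trans (le_of_eq ?_))
    rw [ht, mul_pow]
    ring

end Pool.Agent.Q277.TK
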